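import Pool.Agent.Q267.AM.Ci

/-!
# Complete intersections and their abelian covers, with any singularities: one-parameter families

Let `K` be a number field which contains the `m`-th roots of unity, `t` a parameter, let
`f_1, …, f_r` be forms in `x_0, …, x_n` of the degrees `d_1, …, d_r` and `F_j`, `j` in a finite set
`J`, forms of the degrees `m e_j`; the coefficients are polynomials in `t` over `𝓞 K`. For a
non-empty set `I` of indices let `X_(I, t) ⊂ P ^ n` be defined by `f_i(t, x) = 0`, `i ∈ I`, and let
`L_j` be the Kummer sheaf of rank one of the equation `y ^ m = F_j(t, x)` over the open set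
`F_j ≠ 0` of `X_(I, t)`. No smoothness is assumed: the `X_(I, t)` may be singular along subvarieties
of any dimension, so may be the divisors `F_j = 0`.

**Theorem.** Let for every `j ∈ J` be a point `s_j` of `P ^ 1(K)` at which the value of `f_i` is a
product of linear forms (`1 ≤ i ≤ r`) and the value of `F_j` is the `m`-th power of a product of
linear forms, such that any `n + 1` of all these `d_1 + ⋯ + d_r + e_j` linear forms over the algebraic
closure are linearly independent. Let `Δ ≠ 0` be any polynomial in `t` over `𝓞 K`. Call a place `v`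
of `K`, of norm `q`, good for `t` if `m` and `Δ(t)` are prime to `v` and for all `j ∈ J` and all
non-empty `I` the Cartier operator

  `A ↦ U_q(A (∏_(i ∈ I) f_i) ^ (q - 1) F_j ^ ((q - 1) / m))`, `U_q(x ^ (q u + q - 1)) = x ^ u`,

on the forms of degree `∑_(i ∈ I) d_i + e_j - n - 1` modulo the ideal of `X_(I, t)` is surjective
(hence bijective; the operator maps the ideal to itself, as
`U_q(f_i ^ q A') = f_i U_q(A')` over the residue field).

1. For every `ε > 0` and all but finitely many places `v` of prime norm, at most `ε N v` of the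
   `N v` residue classes `t` are not good.
2. For `η > 0`, `0 < θ < 1` there is `A` such that for all integers `1 ≤ t ≤ X` but at most
   `A (X / Q₀ ^ (1 - θ) + Q₁ ^ (1 + θ))`, and for ALL `Q` with `Q₀ ≤ Q ≤ Q₁`, the good places are at
   least the proportion `1 - η` of ALL places `v` of `K` with `N v ≤ Q`.
3. For `η, δ > 0` there is `C` such that if `X ^ δ Q₀ ≤ Q₁`, then for all integers `1 ≤ t ≤ X` but
   at most `C Q₁` the following holds: for at least the proportion `1 - η` of the scales `Q = 2 ^ j`
   between `Q₀` and `Q₁` the good places are at least the proportion `1 - η` of all places of norm at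
   most `Q`. With `Q₀ = 1`, `Q₁ = X ^ δ`: all members but `O(X ^ δ)`.

**The meaning for the intersection cohomology.** Let `δ = n - #I`, `E = ∑_(i ∈ I) d_i + e_j`, and let
`Δ` vanish at the finitely many `t` at which `X = X_(I, t)` is not a reduced complete intersection or
`F_j = 0` on a component. By the Koszul complex the forms of degree `E - n - 1` modulo the ideal
of `X` are the sections of the dualizing sheaf twisted by `O(e_j)`, and the Cartier operator is dual
to the Frobenius on `H ^ δ(X_v, O(-e_j))`, which is the `j`-th eigenspace of `H ^ δ(Y_v, O)` for the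
cover `Y_v` of `X_v` with the equation `y ^ m = F_j` (at a place `v` of degree one; `N v = 1` modulo
`m`). Let `Z` be a resolution of the normalization of `Y`, `Δ` being chosen such that `Z` has good
reduction, compatible with the resolution, where `Δ(t)` is prime to `v`. Then `H ^ δ(Y, O)_j` maps
ONTO `H ^ δ(Z, O)_j`, whatever the singularities are: the cokernel of `O(-e_j) → (π_* O)_j` is
supported in dimension less than `δ`, and the `a`-th higher direct image, `a > 0`, of the structure
sheaf of a resolution in dimension less than `δ - a`. So the Frobenius is bijective on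
`H ^ δ(Z_v, O)_j`. The intersection cohomology `IH ^ δ(X, L_j)` is a summand of `H ^ δ(Z)_j`, whose
complement comes from subvarieties of smaller dimension and has `h ^ (0, δ) = 0`; at a good place
its part of slope `0` has therefore the dimension `h ^ (0, δ)`, the Newton polygon of
`IH ^ δ(X, L_j)` and its Hodge polygon have the same first segment, and the same last segment if the
inverse character is in `J` as well. The two polygons are equal

* for curves `X` (`δ = 1`), all `J`;
* for surfaces `X` (`δ = 2`) if `J` is closed under inverses of characters: for every `j` there is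
  `j'` such that `F_j F_(j')` is the `m`-th power of a form.

In particular this holds for `IH ^ δ(X)` itself (`m = 1`, `F = 1`, `e = 0`), and for `IH ^ δ(Y)` for
the abelian covers `Y` of `X` all whose characters are in `J`.

**Examples.**

* `m = 1`: every family of complete intersections of curves or surfaces of any multidegree which
  contains a general arrangement of linear subspaces `∏_a λ_(i, a) = 0`, `i = 1, …, r`, such as
  `f_i = ∏_a λ_(i, a) + t g_i` with any `g_i`; for `g_1` in the square of the ideal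
  `(λ_(1, 1), λ_(1, 2))` all members are singular where the linear space
  `λ_(1, 1) = λ_(1, 2) = 0` meets the other hypersurfaces (surfaces in `P ^ 3` with a double line,
  say), and in other families the singular curves and points move with `t`.
* An abelian cover of exponent `m` of `X_(I, t)`, with group `G`, is given by forms `P_c` and
  residues `χ(c)` modulo `m` for the characters `χ` of `G`: here `F_χ = ∏ P_c ^ (χ(c) mod m)`. All
  the `F_χ` have a value of the required kind at `s_0` if the branch divisors come in pairs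
  `P_c`, `P_(c')` with `χ(c') = - χ(c)` for all `χ` which have the same value at `s_0`, a product of
  linear forms.

The condition on `Δ` allows to treat singular families: `Δ` vanishes where the singularities change.

## Proof

The theorem is deduced from the method of `MP_0dad22_ag.KummerSummands` (the soft Stepanov theorem),
applied to the forms `(∏_(i ∈ I) f_i) ^ m F_j` of degree `m E`, simultaneously for all `I` and `j`:
if the Hasse-Witt matrix of this form is invertible, then the Cartier operator is surjective on all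
forms of degree `E - n - 1`, hence on those modulo the ideal.
-/

set_option autoImplicit false

open Finset MvPolynomial NumberField IsDedekindDomain

namespace Pool.Agent.Results.MP_db07cb_ag.CompleteIntersections

/-- The linear form with the coefficients `l`. -/
noncomputable def linForm {R : Type} [CommRing R] {n : ℕ} (l : Fin (n + 1) → R) :
    MvPolynomial (Fin (n + 1)) R :=
  ∑ j, C (l j) * X j

/-- The family `f` of forms has the value `g` at the point `s` of `P^1(K)`: a point `s₀` of `K`, or
infinity, `s = none`, where the value is the coefficient of `t ^ d`, `d` at least the degree in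
`t`. -/
def HasValue {K : Type} [Field K] [NumberField K] {n : ℕ} (s : Option K)
    (f : MvPolynomial (Fin (n + 1)) (Polynomial (𝓞 K)))
    (g : MvPolynomial (Fin (n + 1)) (AlgebraicClosure K)) : Prop :=
  match s with
  | some s₀ => map ((algebraMap K (AlgebraicClosure K)).comp
      (Polynomial.eval₂RingHom (algebraMap (𝓞 K) K) s₀)) f = g
  | none => ∃ d : ℕ, (∀ u, (coeff u f).natDegree ≤ d) ∧
      ∀ u, algebraMap K (AlgebraicClosure K) (algebraMap (𝓞 K) K ((coeff u f).coeff d)) =
        coeff u g

/-- All the linear forms: `L i a` of the equations, `M b` of the form of the character. -/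
def allForms {K : Type} [Field K] {n r : ℕ} {d : Fin r → ℕ} {e : ℕ}
    (L : (i : Fin r) → Fin (d i) → Fin (n + 1) → AlgebraicClosure K)
    (M : Fin e → Fin (n + 1) → AlgebraicClosure K) :
    ((i : Fin r) × Fin (d i)) ⊕ Fin e → Fin (n + 1) → AlgebraicClosure K :=
  Sum.elim (fun x => L x.1 x.2) M

/-- `A` is a form of degree `E - n - 1` (`A = 0` if `E ≤ n`). -/
def IsForm {R : Type} [CommRing R] {n : ℕ} (E : ℕ) (A : MvPolynomial (Fin (n + 1)) R) : Prop :=
  ∀ u ∈ A.support, ∑ i, u i + (n + 1) = E

/-- The Cartier operator `U_q`, which maps `x ^ (q u + q - 1)` to `x ^ u` and the other monomials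
to `0`. -/
noncomputable def cartier {ι R : Type} [Fintype ι] [CommRing R] (q : ℕ) (A : MvPolynomial ι R) :
    MvPolynomial ι R :=
  ∑ w ∈ A.support.filter (fun w => ∀ i, w i % q = q - 1),
    monomial (w.mapRange (· / q) (Nat.zero_div q)) (coeff w A)

/-- The Cartier operator of the complete intersection `g_i = 0`, `i ∈ I`, and of the Kummer sheaf
`y ^ m = h` on it is surjective on the forms of degree `E - n - 1` modulo the ideal. -/
def CartierSurjective {R : Type} [CommRing R] {n r : ℕ} (m q E : ℕ) (I : Finset (Fin r))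
    (g : Fin r → MvPolynomial (Fin (n + 1)) R) (h : MvPolynomial (Fin (n + 1)) R) : Prop :=
  ∀ B : MvPolynomial (Fin (n + 1)) R, IsForm E B →
    ∃ A : MvPolynomial (Fin (n + 1)) R, IsForm E A ∧
      cartier q (A * ((∏ i ∈ I, g i) ^ m * h) ^ ((q - 1) / m)) - B ∈
        Ideal.span (g '' (I : Set (Fin r)))

/-- The member of a family at the integer `t`. -/
noncomputable def member {K : Type} [Field K] [NumberField K] {n : ℕ}
    (f : MvPolynomial (Fin (n + 1)) (Polynomial (𝓞 K))) (t : ℕ) : MvPolynomial (Fin (n + 1)) (𝓞 K) :=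
  map (Polynomial.evalRingHom (t : 𝓞 K)) f

/-- The place `v` is good for `t`: `m` and `Δ(t)` are prime to `v`, and for all `j` in `J` and all
non-empty `I` the Cartier operator of `X_(I, t)` and of the Kummer sheaf `y ^ m = F_j` is
surjective. -/
def Good {K : Type} [Field K] [NumberField K] {n r : ℕ} (m : ℕ) (J : Finset ℕ) (d : Fin r → ℕ)
    (e : ℕ → ℕ) (Δ : Polynomial (𝓞 K)) (f : Fin r → MvPolynomial (Fin (n + 1)) (Polynomial (𝓞 K)))
    (F : ℕ → MvPolynomial (Fin (n + 1)) (Polynomial (𝓞 K))) (t : ℕ)
    (v : HeightOneSpectrum (𝓞 K)) : Prop :=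
  (m : 𝓞 K) ∉ v.asIdeal ∧ Δ.eval (t : 𝓞 K) ∉ v.asIdeal ∧ ∀ j ∈ J, ∀ I : Finset (Fin r),
    I.Nonempty → CartierSurjective m (Ideal.absNorm v.asIdeal) (∑ i ∈ I, d i + e j) I
      (fun i => map (algebraMap (𝓞 K) v.asIdeal.ResidueField) (member (f i) t))
      (map (algebraMap (𝓞 K) v.asIdeal.ResidueField) (member (F j) t))

lemma good_eq {K : Type} [Field K] [NumberField K] {n r : ℕ} (m : ℕ) (J : Finset ℕ)
    (d : Fin r → ℕ) (e : ℕ → ℕ) (Δ : Polynomial (𝓞 K))
    (f : Fin r → MvPolynomial (Fin (n + 1)) (Polynomial (𝓞 K)))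
    (F : ℕ → MvPolynomial (Fin (n + 1)) (Polynomial (𝓞 K))) :
    Pool.Agent.Q267.AM.GoodC m J d e Δ f F = Good m J d e Δ f F := rfl

open Classical in
theorem result (K : Type) [Field K] [NumberField K] (m n r : ℕ) (hm : 1 ≤ m)
    (ζ : K) (hζ : IsPrimitiveRoot ζ m)
    (f : Fin r → MvPolynomial (Fin (n + 1)) (Polynomial (𝓞 K))) (d : Fin r → ℕ)
    (hf : ∀ i, ∀ u ∈ (f i).support, ∑ k, u k = d i)
    (J : Finset ℕ) (F : ℕ → MvPolynomial (Fin (n + 1)) (Polynomial (𝓞 K))) (e : ℕ → ℕ)
    (hF : ∀ j ∈ J, ∀ u ∈ (F j).support, ∑ k, u k = m * e j)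
    (s : ℕ → Option K)
    (L : (j : ℕ) → (i : Fin r) → Fin (d i) → Fin (n + 1) → AlgebraicClosure K)
    (M : (j : ℕ) → Fin (e j) → Fin (n + 1) → AlgebraicClosure K)
    (hgen : ∀ j ∈ J, ∀ σ : Fin (n + 1) → ((i : Fin r) × Fin (d i)) ⊕ Fin (e j),
      Function.Injective σ → (Matrix.of fun a b => allForms (L j) (M j) (σ a) b).det ≠ 0)
    (hfv : ∀ j ∈ J, ∀ i, HasValue (s j) (f i) (∏ a, linForm (L j i a)))
    (hFv : ∀ j ∈ J, HasValue (s j) (F j) ((∏ b, linForm (M j b)) ^ m))
    (Δ : Polynomial (𝓞 K)) (hΔ : Δ ≠ 0) :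
    (∀ ε : ℝ, 0 < ε → {v : HeightOneSpectrum (𝓞 K) | (Ideal.absNorm v.asIdeal).Prime ∧
      ε * Ideal.absNorm v.asIdeal < (((range (Ideal.absNorm v.asIdeal)).filter
        fun t : ℕ => ¬ Good m J d e Δ f F t v).card : ℝ)}.Finite) ∧
    (∀ η : ℝ, 0 < η → ∀ θ : ℝ, 0 < θ → θ < 1 → ∃ A : ℝ, ∀ X Q₀ Q₁ : ℕ, 1 ≤ Q₀ →
      ({t : ℕ | (1 ≤ t ∧ t ≤ X) ∧ ∃ Q, Q₀ ≤ Q ∧ Q ≤ Q₁ ∧
        (Nat.card {v : HeightOneSpectrum (𝓞 K) // Ideal.absNorm v.asIdeal ≤ Q ∧
          Good m J d e Δ f F t v} : ℝ) <
        (1 - η) * Nat.card {v : HeightOneSpectrum (𝓞 K) //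
          Ideal.absNorm v.asIdeal ≤ Q}}.ncard : ℝ) ≤
      A * (X * (Q₀ : ℝ) ^ (θ - 1) + (Q₁ : ℝ) ^ (1 + θ))) ∧
    (∀ η δ : ℝ, 0 < η → 0 < δ → ∃ C : ℝ, ∀ X Q₀ Q₁ : ℕ, 1 ≤ Q₀ → (X : ℝ) ^ δ * Q₀ ≤ Q₁ →
      ({t : ℕ | (1 ≤ t ∧ t ≤ X) ∧
        (Nat.card {j : ℕ // (Q₀ ≤ 2 ^ j ∧ 2 ^ j ≤ Q₁) ∧
          (1 - η) * Nat.card {v : HeightOneSpectrum (𝓞 K) // Ideal.absNorm v.asIdeal ≤ 2 ^ j} ≤
          (Nat.card {v : HeightOneSpectrum (𝓞 K) // Ideal.absNorm v.asIdeal ≤ 2 ^ j ∧
            Good m J d e Δ f F t v} : ℝ)} : ℝ) <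
        (1 - η) * Nat.card {j : ℕ // Q₀ ≤ 2 ^ j ∧ 2 ^ j ≤ Q₁}}.ncard : ℝ) ≤ C * Q₁) := by
  have hfew := fun ε hε => Pool.Agent.Q267.AM.fewC (n := n) m hm ζ hζ J d e f hf F hF s L M hgen
    hfv hFv Δ hΔ ε hε
  have hmod := fun v hv t => Pool.Agent.Q267.AM.goodC_mod (n := n) m J d e Δ f F v hv t
  have h2 := Pool.Agent.Q267.AM.allscales (K := K) _ hmod hfew
  have h3 := Pool.Agent.Q267.AM.mostscales (K := K) _ hmod hfew
  simp only [good_eq] at hfew h2 h3
  refine ⟨fun ε hε => ?_, fun η hη θ hθ0 hθ1 => ?_, fun η δ hη hδ => ?_⟩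
  · refine (hfew ε hε).subset fun v hv => ⟨hv.1, fun h => ?_⟩
    exact absurd (lt_of_lt_of_le hv.2 (le_trans (le_of_eq (by rfl)) h)) (lt_irrefl _)
  · exact h2 η hη θ hθ0 hθ1
  · exact h3 η δ hη hδ

end Pool.Agent.Results.MP_db07cb_ag.CompleteIntersections
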