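import Pool.Agent.Q18.HJ.OrdDefs

/-!
# Ordinary primes for intersection cohomology of images of sums of ternary cubics

Let `F` be a number field. We consider the smooth hypersurfaces, of ARBITRARY dimension,

  `W : f_1(x_1, y_1, z_1) + f_2(x_2, y_2, z_2) + ⋯ + f_r(x_r, y_r, z_r) = 0`,

`f_j` cubic forms in at most three variables, or `f_1(x_1, y_1) + ⋯ + f_r(x_r, y_r) = 0`, `f_j` binary
quartic forms; one more term `u_j^3`, respectively `u_j^4`, is allowed for every `j`. Let `Y` be a
product of such hypersurfaces and of elliptic curves, abelian surfaces, abelian varieties with complex
multiplication and K3 surfaces, or a projective bundle over such a product, and `Y → X` a surjective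
morphism to a projective variety, which may be very singular: cones and joins, finite quotients,
contractions. We prove that the ordinary primes for `IH^n(X)` have positive lower density, for all `n`.
-/

open CategoryTheory MonoidalCategory

universe v u w

namespace Pool.Agent.Results.MP_db07cb_ag.ImagesOfEllipticSums

open Pool.Agent.Q18.HJ

/-- **Ordinary primes for images of elliptic sums.** Let `T` be the pure motives over the algebraic
closure of the number field `F`, and the projective varieties over `F` (`hT`: known facts).
1. For all motives `M` of type `OrdType` (obtained by tensor products, direct sums, direct summands and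
  Tate twists from the motives of elliptic curves, abelian surfaces, abelian varieties with complex
  multiplication, K3 surfaces, and smooth hypersurfaces `W`, of any dimensions, which are sums of
  cubic forms in at most three variables or of binary quartic forms) the ordinary primes have density
  one over some finite extension of `F`.
2. Let `Y` be a smooth projective variety over `F` whose motive over the algebraic closure is of type
  `OrdType`, and `X` a projective variety with a surjective morphism `Y → X`. Then, for all `n`, the
  maximal ideals `𝔭` of `F` with `Newton(Frob_𝔭 | IH^n(X)) = HodgeP(IH^n(X))` have positive lower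
  density, and density one over a finite extension. -/
theorem result {𝓜 : Type u} [Category.{v} 𝓜] [Preadditive 𝓜] [MonoidalCategory 𝓜]
    {T : OrdData.{v, u, w} 𝓜} (hT : T.Facts) :
    (∀ M : 𝓜, T.OrdType M → T.Ord M) ∧
      ∀ Y X : T.Var, T.SmoothV Y → T.OrdType (T.motV Y) → T.Onto Y X → T.OrdIH X :=
  OrdData.final hT

end Pool.Agent.Results.MP_db07cb_ag.ImagesOfEllipticSums
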