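import Pool.Agent.Q17.Mot.K3

/-!
# Newton slopes equal to Hodge slopes: intersection cohomology without an orbit condition

`K₀` is a number field and `R ℓ'` is the `ℓ'`-adic intersection cohomology `IHⁿ` of a projective variety
over `K₀` (or a summand of it, or any pure motive), for all primes `ℓ'`.  The characteristic polynomials
`F v` of the geometric Frobenius elements are integral and do not depend on `ℓ'`.  Over a finite extension
`K` of `K₀` (over which the `ℓ`-adic monodromy groups are connected, for one prime `ℓ`) `R` is a direct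
sum of `m i` copies of pieces `A i`, of weight `w i`, with multiplication by totally real or CM fields `E i` of degree
`d i`, of rank `n i` over `E i` (`E i = ℚ` is allowed).  The `σ`-part of `A i`, for an embedding `σ` of
`E i`, has `n i` Hodge slopes `h σ`, and `hp σ k` is the sum of the `k` smallest ones.

No condition on the orbits of Frobenius on the embeddings is imposed.

1. At a set of places `v` of `K` of density one, for every `A i` some part of which has two different
Hodge slopes, all `0 < k < n`, and every maximal ideal `Q` over `v` of the ring of algebraic integers: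
the sum over all embeddings `σ` of the valuations at `Q` of the `(n - k)`-th coefficients of the
`σ`-parts of the Frobenius polynomial is smaller than `w k d / 2` (`GoodPlace`).  Hence the number of
the embeddings `σ` for which `k` is a vertex of the Hodge polygon which is not on the Newton polygon is
smaller than half the Hodge defect at `k` (the sum over all `σ` of `w k - 2 hp σ k`); these embeddings form a set
which is stable under the Frobenius elements, and its complex conjugate belongs to `n - k`.  Therefore at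
least all but `totalLost γ = ∑ i, m i * maxLost (A i) γ` of the Hodge slopes of `R` are, with
multiplicity, Newton slopes of `R ℓ'` at `v`, for all `ℓ'` and all embeddings `τ` of the field of
algebraic numbers into `ℚ̄_p`, and every Frobenius element `γ` at `v`.  Here `maxLost (A i) γ` is the
largest number of Hodge slopes on segments with an end in a failing vertex, for families of sets of embeddings with
the properties above.
2. For every element `γ` of the absolute Galois group of `K` the places of `K₀` with this property have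
positive lower density.
3. If `A i` satisfies the orbit condition of the starting theorem `OrdinarySummands`, then
`maxLost (A i) γ = 0`.
4. Real multiplication in weight two (`IsRMWeightTwo`): if the Hodge slopes of `e ≥ 1` of the parts are
`0, 1, …, 1, 2` and those of the other ones are all `1`, and if the orbits of `γ` on these `e` embeddings
have at least `t` elements, then `maxLost (A i) γ ≤ n e - n t`.  With `t = 1`: at a set of places of
density one all slopes of at least one of the `e` parts are kept.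

The definitions are in `Pool.Agent.W528.Ord.MotDefs`, `Pool.Agent.Q17.Mot.Good` (`GoodPlace`,
`SmallFamily`, `lost`, `maxLost`), `Pool.Agent.Q17.Mot.Slopes` (`HasSlopesTau`, `totalLost`) and
`Pool.Agent.Q17.Mot.K3` (`IsRMWeightTwo`, `IsK3Part`).
-/

set_option autoImplicit false

namespace Pool.Agent.Results.MP_db07cb_ag.SharedSlopes

open NumberField IsDedekindDomain Polynomial Filter Topology
open Pool.Agent.W401.Cheb Pool.Agent.W528.Ord Pool.Agent.Q17.Mot
open Pool.Agent.W528.Ord.MultSystem (mv IsDeg1)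

/-- The realisations `R ℓ'` are strictly compatible: at the places of degree one outside `S` the
characteristic polynomial of the geometric Frobenius element (the inverse of `γ`) is `F v`. -/
def StrictlyCompatible {K₀ : Type} [Field K₀] [NumberField K₀] (S : Finset ℕ) {r : ℕ}
    (R : ∀ (ℓ' : ℕ) [Fact ℓ'.Prime], GK K₀ →* Matrix.GeneralLinearGroup (Fin r) ℚ_[ℓ'])
    (F : HeightOneSpectrum (𝓞 K₀) → ℤ[X]) : Prop :=
  ∀ (ℓ' : ℕ) [Fact ℓ'.Prime] (v₀ : HeightOneSpectrum (𝓞 K₀)), IsDeg1 S v₀ →
    Ideal.absNorm v₀.asIdeal ≠ ℓ' → ∀ γ : GK K₀, IsFrob v₀ γ →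
      (R ℓ' γ⁻¹ : Matrix (Fin r) (Fin r) ℚ_[ℓ']).charpoly = (F v₀).map (Int.castRingHom ℚ_[ℓ'])

/-- All but `b` of the slopes `H` are Newton slopes at `v₀`: there is a part `H'` of `H` with at least
`|H| - b` elements which is, with multiplicity, among the Newton slopes of `R ℓ'` at `v₀`, for every prime
`ℓ'` different from the residue characteristic `p = N v₀` and every embedding `τ` of the field of
algebraic numbers. -/
def SharesSlopes {K₀ : Type} [Field K₀] [NumberField K₀] {r : ℕ}
    (R : ∀ (ℓ' : ℕ) [Fact ℓ'.Prime], GK K₀ →* Matrix.GeneralLinearGroup (Fin r) ℚ_[ℓ'])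
    (H : Multiset ℕ) (b : ℕ) (v₀ : HeightOneSpectrum (𝓞 K₀)) : Prop :=
  ∃ (p : ℕ) (_ : Fact p.Prime), Ideal.absNorm v₀.asIdeal = p ∧ ∃ H' : Multiset ℕ, H' ≤ H ∧
    Multiset.card H ≤ Multiset.card H' + b ∧
    ∀ (ℓ' : ℕ) [Fact ℓ'.Prime], p ≠ ℓ' → ∀ γ : GK K₀, IsFrob v₀ γ →
      ∀ τ : algebraicClosure ℚ (PadicAlgCl ℓ') →+* PadicAlgCl p,
        HasSlopesTau (R ℓ' γ⁻¹ : Matrix (Fin r) (Fin r) ℚ_[ℓ']) τ H'

theorem result (K₀ K : Type) [Field K₀] [NumberField K₀] [Field K] [NumberField K] [Algebra K₀ K]
    (ℓ : ℕ) [Fact ℓ.Prime] {ι : Type} [Fintype ι]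
    -- the pieces `A i` over `K`
    (A : ι → MotSystem K ℓ) (m : ι → ℕ) (χ : GK K →* (PadicAlgCl ℓ)ˣ) (S : Finset ℕ)
    (hA : ∀ i, (A i).IsMotive χ S) {r : ℕ}
    -- the compatible system `R` over `K₀`
    (R : ∀ (ℓ' : ℕ) [Fact ℓ'.Prime], GK K₀ →* Matrix.GeneralLinearGroup (Fin r) ℚ_[ℓ'])
    (F : HeightOneSpectrum (𝓞 K₀) → ℤ[X]) (hR : StrictlyCompatible S R F)
    (hF : ∀ (v₀ : HeightOneSpectrum (𝓞 K₀)) (v : HeightOneSpectrum (𝓞 K)),
      v.asIdeal.comap (algebraMap (𝓞 K₀) (𝓞 K)) = v₀.asIdeal → IsDeg1 S v →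
      (F v₀).map (Int.castRingHom (AlgebraicClosure K)) = MotSystem.prodPoly A m v) :
    -- a set of places of `K` of density one
    Tendsto (ratio fun v : HeightOneSpectrum (𝓞 K) => GoodPlace A S v ∧
      ∀ v₀ : HeightOneSpectrum (𝓞 K₀), v.asIdeal.comap (algebraMap (𝓞 K₀) (𝓞 K)) = v₀.asIdeal →
      ∀ γ : GK K, IsFrob v γ → SharesSlopes R (MotSystem.slopes A m) (totalLost A m γ) v₀) atTop (𝓝 1) ∧
    -- for every element of the Galois group a set of places of `K₀` of positive lower density
    (∀ γ : GK K, 0 < lowerDensity fun v₀ : HeightOneSpectrum (𝓞 K₀) => IsDeg1 S v₀ ∧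
      SharesSlopes R (MotSystem.slopes A m) (totalLost A m γ) v₀) ∧
    -- nothing is lost under the orbit condition
    (∀ i (γ : GK K), (A i).Admissible γ → maxLost (A i) γ = 0) ∧
    -- real multiplication in weight two
    ∀ i, IsRMWeightTwo (A i) → (∃ σ, IsK3Part (A i) σ) → ∀ (γ : GK K) (t : ℕ),
      (∀ σ : (A i).E →+* AlgebraicClosure K, IsK3Part (A i) σ →
        t ≤ {σ' : (A i).E →+* AlgebraicClosure K | ∃ j : ℕ, σ' = mv (γ ^ j) σ}.ncard) →
      maxLost (A i) γ + (A i).n * t ≤ (A i).n * {σ | IsK3Part (A i) σ}.ncard := by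
  have key : ∀ v, GoodPlace A S v → ∀ v₀ : HeightOneSpectrum (𝓞 K₀),
      v.asIdeal.comap (algebraMap (𝓞 K₀) (𝓞 K)) = v₀.asIdeal → ∀ γ : GK K, IsFrob v γ →
      SharesSlopes R (MotSystem.slopes A m) (totalLost A m γ) v₀ := by
    rintro v hv v₀ h0 γ ⟨Q, hQ, hQv, hγ⟩
    have e := under_norm v hv.1.1 v₀ h0
    obtain ⟨H', h1, h2, h3⟩ := hasSlopes A m χ S hA hv ⟨hQ, hQv⟩ hγ (F v₀) (hF v₀ v h0 hv.1)
    rw [← e] at h3
    have h3' := h3
    obtain ⟨hp, -⟩ := h3
    refine ⟨Ideal.absNorm v₀.asIdeal, hp, rfl, H', h1, h2, ?_⟩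
    intro ℓ' _ hne γ' hγ' τ
    have hd : IsDeg1 S v₀ := by
      unfold IsDeg1
      rw [e]
      exact hv.1
    exact hasSlopesTau_of _ τ H' (F v₀) (hR ℓ' v₀ hd hne γ' hγ') h3'
  refine ⟨?_, ?_, fun i γ h => maxLost_of_admissible h,
    fun i h1 h2 γ t ht => maxLost_k3 (hA i) h1 h2 γ t ht⟩
  · apply Pool.Agent.TH30.Ord.ratio_one
    refine squeeze_zero (fun N => dens_nonneg _ _) (fun N => dens_mono ?_ N) (dens_good A χ S hA)
    intro v hv hg'
    exact hv ⟨hg', fun v₀ h0 γ hγ => key v hg' v₀ h0 γ hγ⟩
  · intro γ₀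
    obtain ⟨δ, hδ, hev⟩ := lower_K A χ S hA γ₀
    have hd : (0 : ℝ) < (Module.finrank ℚ K : ℝ) := by exact_mod_cast Module.finrank_pos
    apply lowerDensity_pos _ (δ / (Module.finrank ℚ K : ℝ)) (by positivity)
    filter_upwards [hev] with N hN
    have h1 := dens_under (K₀ := K₀) (fun v : HeightOneSpectrum (𝓞 K) => GoodPlace A S v ∧
        ∃ γ : GK K, IsFrob v γ ∧ ∀ i, maxLost (A i) γ ≤ maxLost (A i) γ₀)
        (fun v₀ : HeightOneSpectrum (𝓞 K₀) => IsDeg1 S v₀ ∧
          SharesSlopes R (MotSystem.slopes A m) (totalLost A m γ₀) v₀)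
        (fun v hv => hv.1.1.1) (fun v v₀ hv h0 => by
          obtain ⟨hgood, γ, hγ, hle⟩ := hv
          have e := under_norm v hgood.1.1 v₀ h0
          refine ⟨?_, ?_⟩
          · unfold IsDeg1
            rw [e]
            exact hgood.1
          · obtain ⟨p, hp, hpe, H', h1, h2, h3⟩ := key v hgood v₀ h0 γ hγ
            refine ⟨p, hp, hpe, H', h1, h2.trans (Nat.add_le_add_left ?_ _), h3⟩
            unfold totalLost
            exact Finset.sum_le_sum fun i _ => Nat.mul_le_mul_left _ (hle i)) N
    rw [div_le_iff₀ hd, mul_comm]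
    exact hN.trans h1

end Pool.Agent.Results.MP_db07cb_ag.SharedSlopes
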