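import Pool.Agent.Q267.TD.Ci2

/-!
# Complete intersections in toric varieties and their abelian covers, with any singularities:
one-parameter families with a tropical degeneration

Let `K` be a number field which contains the `m`-th roots of unity, `t` a parameter, and let
`f_1, …, f_r` and `F_j` (`j` a natural number) be forms in `x_0, …, x_n` of the degrees `d_i` and
`m e_j` whose coefficients are polynomials in `t` over `𝓞 K`. Let `L` be a finite set of linear forms
with integral coefficients, `b_i(ℓ)` and `c_j(ℓ)`, `ℓ ∈ L`, integers, such that all exponents of `f_i`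
are in the polytope `P_i` and all those of `F_j` in `m Q_j`,

  `P_i = {x : x_k ≥ 0, ∑ x_k = d_i, ℓ(x) ≥ b_i(ℓ)}`, `Q_j = {x : x_k ≥ 0, ∑ x_k = e_j, ℓ(x) ≥ c_j(ℓ)}`.

For a set `I` of indices `i` and an index `j` let `P_(I, j)` be the polytope
`{x : x_k ≥ 0, ∑ x_k = ∑_(i ∈ I) d_i + e_j, ℓ(x) ≥ ∑_(i ∈ I) b_i(ℓ) + c_j(ℓ)}`.

Let `V` be a projective toric variety of dimension `n` on which the `P_i` and `Q_j` are the polytopes
of the sections of nef divisors `D_i`, `E_j` (for example `P ^ n` if `L` is empty, or products of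
projective spaces, Hirzebruch surfaces, …). The equations `f_i = 0`, `i ∈ I`, define the complete
intersection `X_(I, t)` in `V`, and `y ^ m = F_j(t, x)` the Kummer sheaf `L_j` of rank one on it. No
smoothness is assumed.

Let `s` be a point of `P ^ 1(K)`. The orders at `s` of the coefficients of a family `F` define the
regular subdivision of its Newton polytope. The exponent `v` of `F` is a vertex of it for the linear
form `λ` if `ord c_u - ord c_v > λ(u - v)` for all exponents `u ≠ v` of `F`. The exponent `m w`,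
`w` an integral point of `P_(I, j)`, is called a vertex of the mixed subdivision if there are a
linear form `λ`, vertices `v_i` of `f_i` (`i ∈ I`) and a vertex `v'` of `F_j`, all for `λ`, such that
`m ∑ v_i + v' = m w`.

**Theorem.** Let `T` be a finite set of pairs `(I, j)`, and for each of them let `s_(I, j)` be a point
of `P ^ 1(K)` such that all the exponents `m w`, `w` the integral points in the interior of
`P_(I, j)`, are vertices of the mixed subdivision of `f_i`, `i ∈ I`, and `F_j` at `s_(I, j)`. Let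
`Δ ≠ 0` be any polynomial in `t` over `𝓞 K`. Call a place `v` of `K`, of norm `q`, good for `t` if `m`
and `Δ(t)` are prime to `v` and for all `(I, j) ∈ T` the Cartier operator

  `A ↦ U_q(A (∏_(i ∈ I) f_i) ^ (q - 1) F_j ^ ((q - 1) / m))`, `U_q(x ^ (q u + q - 1)) = x ^ u`,

on the space spanned by the `x ^ u` with `u + (1, …, 1)` in the interior of `P_(I, j)` is surjective
(`q - 1` is divisible by `m` at a place which is prime to `m`).

1. For every `ε > 0` and all but finitely many places `v` of prime norm, at most `ε N v` of the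
   `N v` residue classes `t` are not good.
2. For `η > 0`, `0 < θ < 1` there is `A` such that for all integers `1 ≤ t ≤ X` but at most
   `A (X / Q₀ ^ (1 - θ) + Q₁ ^ (1 + θ))`, and for ALL `Q` with `Q₀ ≤ Q ≤ Q₁`, the good places are at
   least the proportion `1 - η` of ALL places `v` of `K` with `N v ≤ Q`.
3. For `η, δ > 0` there is `C` such that if `X ^ δ Q₀ ≤ Q₁`, then for all integers `1 ≤ t ≤ X` but
   at most `C Q₁` the following holds: for at least the proportion `1 - η` of the scales `Q = 2 ^ j`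
   between `Q₀` and `Q₁` the good places are at least the proportion `1 - η` of all places of norm at
   most `Q`. With `Q₀ = 1`, `Q₁ = X ^ δ`: all members but `O(X ^ δ)`.

**The meaning for the intersection cohomology.** Let `δ = n - #I`, and let `Δ` vanish at the finitely
many `t` at which `X = X_(I, t)` is not a reduced complete intersection, or `F_j = 0` on a
component. The `x ^ u` with `u + 1` in the interior of `P_(I, j)` are the sections of
`ω_V(∑_(i ∈ I) D_i + E_j)`; the residue maps them to the sections of the dualizing sheaf of `X`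
twisted by `E_j` (onto them, if the `D_i` are big as well: by Batyrev and Borisov the cohomology in
the Koszul complex vanishes), in such a way that the above operator induces the Cartier operator of
`X` and `L_j`, which is dual to the Frobenius on `H ^ δ(X_v, O(-E_j))`. This space is the `j`-th
eigenspace of `H ^ δ(Y_v, O)` for the cover `Y_v` of `X_v` with the equation `y ^ m = F_j`. So at a
good place of degree one (outside a finite set) the Frobenius is bijective on it, and as in
`MP_db07cb_ag.CompleteIntersections` it is bijective on its quotient `H ^ δ(Z_v, O)_j`, `Z` a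
resolution of the normalization of `Y`, whatever the singularities are. The intersection cohomology
`IH ^ δ(X, L_j)` is a summand of `H ^ δ(Z)_j` whose complement has `h ^ (0, δ) = 0`. At a good place
the Newton polygon of `IH ^ δ(X, L_j)` and its Hodge polygon have therefore the same first segment,
and the same last segment if the inverse character is in `T` as well. The two polygons are equal

* for curves `X` (`δ = 1`), all `j` with `(I, j) ∈ T`;
* for surfaces `X` (`δ = 2`) if the `j` with `(I, j) ∈ T` are closed under inverses of characters;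
  in particular for `m = 1`, `F = 1`, `e = 0`, `c = 0`, where `IH ^ δ(X, L_j) = IH ^ δ(X)`.

**Examples.**

* If `w₀` is the only integral point in the interior of `P_(I, j)`, any partition
  `m w₀ = m ∑ v_i + v'` with `v_i ∈ P_i`, `v' ∈ m Q_j` gives the families `f_i = g_i(x) + t x ^ (v_i)`,
  `F_j = G_j(x) + t x ^ (v')` with ANY `g_i`, `G_j` (`s` infinity). For `m = 1`, `F = 1`: all pencils of
  Calabi-Yau complete intersections given by a nef partition, such as `g_i + t ∏_(k ∈ N_i) x_k` in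
  `P ^ n`, `N_1, …, N_r` a partition of `{0, …, n}`.
* Curves and surfaces of every genus: `f_i = ∑_u a_(i, u) t ^ (h_i(u)) x ^ u` with generic heights
  `h_i` for which the interior integral points of `P_(I, j)` are vertices of the mixed subdivision
  (totally degenerate curves in toric surfaces and threefolds, for example); every `a_(i, u)` may be
  multiplied by any polynomial in `t` which does not vanish at `0` if `u` is one of the vertices
  used, and by any polynomial at all otherwise.

The case where the `f_i` and `F_j` degenerate to products of linear forms in general position is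
`MP_db07cb_ag.CompleteIntersections`: there the periods live at the vertices of the arrangement,
here at the vertices of the mixed subdivision. Neither of the two theorems contains the other.

## Proof

The theorem is deduced from the method of `MP_0dad22_ag.TropicalDegenerations` (the soft Stepanov
theorem and the periods at the vertices of the regular subdivision), applied to the forms
`(∏_(i ∈ I) f_i) ^ m F_j`, whose vertices include `m ∑ v_i + v'`: if the Hasse-Witt matrix of this form
is invertible, then the Cartier operator is surjective.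
-/

set_option autoImplicit false

open Finset MvPolynomial NumberField IsDedekindDomain

namespace Pool.Agent.Results.MP_db07cb_ag.ToricCompleteIntersections

/-- The order of a polynomial at the point `s` of `P^1(K)`: the multiplicity of the root `s₀`, or, at
infinity (`s = none`), the negative of the degree. -/
noncomputable def ordAt {K : Type} [Field K] (s : Option K) (c : Polynomial K) : ℤ :=
  match s with
  | some s₀ => (c.rootMultiplicity s₀ : ℤ)
  | none => -(c.natDegree : ℤ)

/-- The exponent `v` is a vertex, for the linear form `lam`, of the regular subdivision defined by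
the orders at `s` of the coefficients of `F`. -/
def IsVertex {K : Type} [Field K] [NumberField K] {n : ℕ} (s : Option K) (lam : Fin (n + 1) → ℚ)
    (F : MvPolynomial (Fin (n + 1)) (Polynomial (𝓞 K))) (v : Fin (n + 1) →₀ ℕ) : Prop :=
  v ∈ F.support ∧ ∀ u ∈ F.support, u ≠ v →
    ∑ i, lam i * ((u i : ℚ) - (v i : ℚ)) <
      (ordAt s ((coeff u F).map (algebraMap (𝓞 K) K)) : ℚ) -
        ordAt s ((coeff v F).map (algebraMap (𝓞 K) K))

/-- The exponent `m w` is a vertex of the mixed subdivision of `f_i`, `i ∈ I`, and `F` at `s`: it is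
`m ∑ v_i + v'` with vertices `v_i` of `f_i` and `v'` of `F` for the same linear form. -/
def IsMixedVertex {K : Type} [Field K] [NumberField K] {n r : ℕ} (m : ℕ) (s : Option K)
    (I : Finset (Fin r)) (f : Fin r → MvPolynomial (Fin (n + 1)) (Polynomial (𝓞 K)))
    (F : MvPolynomial (Fin (n + 1)) (Polynomial (𝓞 K))) (w : Fin (n + 1) →₀ ℕ) : Prop :=
  ∃ (lam : Fin (n + 1) → ℚ) (v : Fin r → Fin (n + 1) →₀ ℕ) (v' : Fin (n + 1) →₀ ℕ),
    (∀ i ∈ I, IsVertex s lam (f i) (v i)) ∧ IsVertex s lam F v' ∧ m • ∑ i ∈ I, v i + v' = m • w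

/-- All exponents of `F` have the degree `D` and satisfy `ℓ(u) ≥ β(ℓ)` for `ℓ ∈ L`. -/
def ExponentsIn {R : Type} [CommRing R] {n : ℕ} (L : Finset (Fin (n + 1) → ℤ)) (D : ℕ)
    (β : (Fin (n + 1) → ℤ) → ℤ) (F : MvPolynomial (Fin (n + 1)) R) : Prop :=
  ∀ u ∈ F.support, ∑ i, u i = D ∧ ∀ ℓ ∈ L, β ℓ ≤ ∑ i, ℓ i * (u i : ℤ)

/-- The integral points in the interior of the polytope `x_i ≥ 0`, `∑ x_i = E`, `ℓ(x) ≥ β(ℓ)` for
`ℓ ∈ L`. -/
abbrev Interior (n E : ℕ) (L : Finset (Fin (n + 1) → ℤ)) (β : (Fin (n + 1) → ℤ) → ℤ) :=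
  {w : (i : Fin (n + 1)) → Fin (E + 1) // (∀ i, 0 < (w i : ℕ)) ∧ ∑ i, (w i : ℕ) = E ∧
    ∀ ℓ ∈ L, β ℓ < ∑ i, ℓ i * ((w i : ℕ) : ℤ)}

/-- The exponent as a finitely supported function. -/
noncomputable def expo {n E : ℕ} {L : Finset (Fin (n + 1) → ℤ)} {β : (Fin (n + 1) → ℤ) → ℤ}
    (w : Interior n E L β) : Fin (n + 1) →₀ ℕ :=
  Finsupp.equivFunOnFinite.symm fun i => (w.1 i : ℕ)

/-- `A` is a linear combination of the `x ^ u` with `u + (1, …, 1)` in the interior of the polytope
`x_i ≥ 0`, `∑ x_i = E`, `ℓ(x) ≥ β(ℓ)` for `ℓ ∈ L`. -/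
def IsSection {R : Type} [CommRing R] {n : ℕ} (E : ℕ) (L : Finset (Fin (n + 1) → ℤ))
    (β : (Fin (n + 1) → ℤ) → ℤ) (A : MvPolynomial (Fin (n + 1)) R) : Prop :=
  ∀ u ∈ A.support, ∑ i, u i + (n + 1) = E ∧ ∀ ℓ ∈ L, β ℓ < ∑ i, ℓ i * ((u i : ℤ) + 1)

/-- The Cartier operator `U_q`, which maps `x ^ (q u + q - 1)` to `x ^ u` and the other monomials
to `0`. -/
noncomputable def cartier {ι R : Type} [Fintype ι] [CommRing R] (q : ℕ) (A : MvPolynomial ι R) :
    MvPolynomial ι R :=
  ∑ w ∈ A.support.filter (fun w => ∀ i, w i % q = q - 1),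
    monomial (w.mapRange (· / q) (Nat.zero_div q)) (coeff w A)

/-- The Cartier operator of the complete intersection `g_i = 0`, `i ∈ I`, and of the Kummer sheaf
`y ^ m = h` on it is surjective on the sections. -/
def CartierSurjective {R : Type} [CommRing R] {n r : ℕ} (m q E : ℕ)
    (L : Finset (Fin (n + 1) → ℤ)) (β : (Fin (n + 1) → ℤ) → ℤ) (I : Finset (Fin r))
    (g : Fin r → MvPolynomial (Fin (n + 1)) R) (h : MvPolynomial (Fin (n + 1)) R) : Prop :=
  ∀ B : MvPolynomial (Fin (n + 1)) R, IsSection E L β B →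
    ∃ A : MvPolynomial (Fin (n + 1)) R, IsSection E L β A ∧
      cartier q (A * ((∏ i ∈ I, g i) ^ m * h) ^ ((q - 1) / m)) = B

/-- The member of a family at the integer `t`. -/
noncomputable def member {K : Type} [Field K] [NumberField K] {n : ℕ}
    (f : MvPolynomial (Fin (n + 1)) (Polynomial (𝓞 K))) (t : ℕ) : MvPolynomial (Fin (n + 1)) (𝓞 K) :=
  map (Polynomial.evalRingHom (t : 𝓞 K)) f

/-- The place `v` is good for `t`: `m` and `Δ(t)` are prime to `v`, and for all `(I, j)` in `T` the
Cartier operator of `X_(I, t)` and of the Kummer sheaf `y ^ m = F_j` is surjective. -/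
def Good {K : Type} [Field K] [NumberField K] {n r : ℕ} (m : ℕ)
    (T : Finset (Finset (Fin r) × ℕ)) (L : Finset (Fin (n + 1) → ℤ)) (d : Fin r → ℕ)
    (b : Fin r → (Fin (n + 1) → ℤ) → ℤ) (e : ℕ → ℕ) (c : ℕ → (Fin (n + 1) → ℤ) → ℤ)
    (Δ : Polynomial (𝓞 K)) (f : Fin r → MvPolynomial (Fin (n + 1)) (Polynomial (𝓞 K)))
    (F : ℕ → MvPolynomial (Fin (n + 1)) (Polynomial (𝓞 K))) (t : ℕ)
    (v : HeightOneSpectrum (𝓞 K)) : Prop :=
  (m : 𝓞 K) ∉ v.asIdeal ∧ Δ.eval (t : 𝓞 K) ∉ v.asIdeal ∧ ∀ I j, (I, j) ∈ T →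
    CartierSurjective m (Ideal.absNorm v.asIdeal) (∑ i ∈ I, d i + e j) L
      (fun ℓ => ∑ i ∈ I, b i ℓ + c j ℓ) I
      (fun i => map (algebraMap (𝓞 K) v.asIdeal.ResidueField) (member (f i) t))
      (map (algebraMap (𝓞 K) v.asIdeal.ResidueField) (member (F j) t))

lemma good_eq {K : Type} [Field K] [NumberField K] {n r : ℕ} (m : ℕ)
    (T : Finset (Finset (Fin r) × ℕ)) (L : Finset (Fin (n + 1) → ℤ)) (d : Fin r → ℕ)
    (b : Fin r → (Fin (n + 1) → ℤ) → ℤ) (e : ℕ → ℕ) (c : ℕ → (Fin (n + 1) → ℤ) → ℤ)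
    (Δ : Polynomial (𝓞 K)) (f : Fin r → MvPolynomial (Fin (n + 1)) (Polynomial (𝓞 K)))
    (F : ℕ → MvPolynomial (Fin (n + 1)) (Polynomial (𝓞 K))) :
    Pool.Agent.Q267.TD.GoodY m T L d b e c Δ f F = Good m T L d b e c Δ f F := rfl

open Classical in
theorem result (K : Type) [Field K] [NumberField K] (m n r : ℕ) (hm : 1 ≤ m)
    (ζ : K) (hζ : IsPrimitiveRoot ζ m) (L : Finset (Fin (n + 1) → ℤ))
    (f : Fin r → MvPolynomial (Fin (n + 1)) (Polynomial (𝓞 K))) (d : Fin r → ℕ)
    (b : Fin r → (Fin (n + 1) → ℤ) → ℤ) (hf : ∀ i, ExponentsIn L (d i) (b i) (f i))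
    (T : Finset (Finset (Fin r) × ℕ))
    (F : ℕ → MvPolynomial (Fin (n + 1)) (Polynomial (𝓞 K))) (e : ℕ → ℕ)
    (c : ℕ → (Fin (n + 1) → ℤ) → ℤ)
    (hF : ∀ I j, (I, j) ∈ T → ExponentsIn L (m * e j) (fun ℓ => m * c j ℓ) (F j))
    (s : Finset (Fin r) → ℕ → Option K)
    (hs : ∀ I j, (I, j) ∈ T →
      ∀ w : Interior n (∑ i ∈ I, d i + e j) L (fun ℓ => ∑ i ∈ I, b i ℓ + c j ℓ),
        IsMixedVertex m (s I j) I f (F j) (expo w))
    (Δ : Polynomial (𝓞 K)) (hΔ : Δ ≠ 0) :
    (∀ ε : ℝ, 0 < ε → {v : HeightOneSpectrum (𝓞 K) | (Ideal.absNorm v.asIdeal).Prime ∧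
      ε * Ideal.absNorm v.asIdeal < (((range (Ideal.absNorm v.asIdeal)).filter
        fun t : ℕ => ¬ Good m T L d b e c Δ f F t v).card : ℝ)}.Finite) ∧
    (∀ η : ℝ, 0 < η → ∀ θ : ℝ, 0 < θ → θ < 1 → ∃ A : ℝ, ∀ X Q₀ Q₁ : ℕ, 1 ≤ Q₀ →
      ({t : ℕ | (1 ≤ t ∧ t ≤ X) ∧ ∃ Q, Q₀ ≤ Q ∧ Q ≤ Q₁ ∧
        (Nat.card {v : HeightOneSpectrum (𝓞 K) // Ideal.absNorm v.asIdeal ≤ Q ∧
          Good m T L d b e c Δ f F t v} : ℝ) <
        (1 - η) * Nat.card {v : HeightOneSpectrum (𝓞 K) //
          Ideal.absNorm v.asIdeal ≤ Q}}.ncard : ℝ) ≤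
      A * (X * (Q₀ : ℝ) ^ (θ - 1) + (Q₁ : ℝ) ^ (1 + θ))) ∧
    (∀ η δ : ℝ, 0 < η → 0 < δ → ∃ C : ℝ, ∀ X Q₀ Q₁ : ℕ, 1 ≤ Q₀ → (X : ℝ) ^ δ * Q₀ ≤ Q₁ →
      ({t : ℕ | (1 ≤ t ∧ t ≤ X) ∧
        (Nat.card {j : ℕ // (Q₀ ≤ 2 ^ j ∧ 2 ^ j ≤ Q₁) ∧
          (1 - η) * Nat.card {v : HeightOneSpectrum (𝓞 K) // Ideal.absNorm v.asIdeal ≤ 2 ^ j} ≤
          (Nat.card {v : HeightOneSpectrum (𝓞 K) // Ideal.absNorm v.asIdeal ≤ 2 ^ j ∧
            Good m T L d b e c Δ f F t v} : ℝ)} : ℝ) <
        (1 - η) * Nat.card {j : ℕ // Q₀ ≤ 2 ^ j ∧ 2 ^ j ≤ Q₁}}.ncard : ℝ) ≤ C * Q₁) := by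
  have hfew := fun ε hε => Pool.Agent.Q267.TD.fewY (n := n) m hm ζ hζ T L d b e c f hf F
    (fun x hx => hF x.1 x.2 hx) (fun x => s x.1 x.2) hs Δ hΔ ε hε
  have hmod := fun v hv t => Pool.Agent.Q267.TD.goodY_mod (n := n) m T L d b e c Δ f F v hv t
  have h2 := Pool.Agent.Q267.AM.allscales (K := K) _ hmod hfew
  have h3 := Pool.Agent.Q267.AM.mostscales (K := K) _ hmod hfew
  simp only [good_eq] at hfew h2 h3
  refine ⟨fun ε hε => ?_, fun η hη θ hθ0 hθ1 => ?_, fun η δ hη hδ => ?_⟩
  · refine (hfew ε hε).subset fun v hv => ⟨hv.1, fun h => ?_⟩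
    exact absurd (lt_of_lt_of_le hv.2 (le_trans (le_of_eq (by rfl)) h)) (lt_irrefl _)
  · exact h2 η hη θ hθ0 hθ1
  · exact h3 η δ hη hδ

end Pool.Agent.Results.MP_db07cb_ag.ToricCompleteIntersections
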